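import Mathlib
import Pool.Agent.U722.FF.Stm3
import Pool.Agent.N24.TR.Tree

/-!
# Project LI, package GLUE

Statement by helper722, proof by helper27. The compatible homomorphisms `φ v` are extended to a
cocycle `p v y` (`p v (y g) = p (g v) y + p v g`, `p v a = φ v a` for `a` in the stabilizer of `v`)
of the action; the difference of `p` at the two ends of an edge is the coboundary of a function `ν`
of the edges, which is the difference of the values of a function `κ` on the vertices, since the graph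
is a tree; `p v y - (κ (y v) - κ v)` does not depend on `v` and is the homomorphism.
-/

set_option autoImplicit false

namespace Pool.Agent.U27.LIP

open MulAction SimpleGraph U722.FF Pool.Agent.N24.TR

section sec

variable (G V : Type) [Group G] [MulAction G V]

/-- representatives of the orbits -/
theorem exists_rep : ∃ (r : V → V) (γ : V → G), (∀ v, γ v • r v = v) ∧ ∀ (g : G) v, r (g • v) = r v := by
  classical
  let r : V → V := fun v => (Quotient.mk'' v : orbitRel.Quotient G V).out
  have h1 : ∀ v, ∃ g : G, g • r v = v := by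
    intro v
    have h2 : (Quotient.mk'' (r v) : orbitRel.Quotient G V) = Quotient.mk'' v := Quotient.out_eq' _
    have h3 : (orbitRel G V) (r v) v := Quotient.exact h2
    have h4 := (orbitRel G V).symm' h3
    obtain ⟨g, hg⟩ := orbitRel_apply.1 h4
    exact ⟨g, hg⟩
  choose γ hγ using h1
  refine ⟨r, γ, hγ, fun g v => ?_⟩
  have h5 : (Quotient.mk'' (g • v) : orbitRel.Quotient G V) = Quotient.mk'' v :=
    Quotient.sound (orbitRel_apply.2 ⟨g, rfl⟩)
  show (Quotient.mk'' (g • v) : orbitRel.Quotient G V).out =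
    (Quotient.mk'' v : orbitRel.Quotient G V).out
  rw [h5]

end sec

theorem t_GLUE : S_GLUE := by
  classical
  intro G V E _ _ _ T s t hT hO φ hF hne
  obtain ⟨r, γ, hγ, hr⟩ := exists_rep G V
  obtain ⟨re, γe, hγe, hre⟩ := exists_rep G E
  -- the cocycle
  obtain ⟨p, hp⟩ : ∃ p : V → G → ℚ, ∀ v y, p v y = φ (r v) ((γ (y • v))⁻¹ * y * γ v) :=
    ⟨_, fun _ _ => rfl⟩
  have hmem : ∀ v y, (γ (y • v))⁻¹ * y * γ v ∈ stabilizer G (r v) := by
    intro v y
    rw [mem_stabilizer_iff, mul_smul, mul_smul, hγ, inv_smul_eq_iff]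
    conv_rhs => rw [← hr y v]
    rw [hγ]
  have hcoc : ∀ v y g, p v (y * g) = p (g • v) y + p v g := by
    intro v y g
    rw [hp, hp, hp, hr]
    have e1 : (γ ((y * g) • v))⁻¹ * (y * g) * γ v =
        ((γ (y • g • v))⁻¹ * y * γ (g • v)) * ((γ (g • v))⁻¹ * g * γ v) := by
      rw [mul_smul]
      group
    rw [e1]
    refine hF.hom _ _ ?_ _ (hmem v g)
    have h1 := hmem (g • v) y
    rwa [hr] at h1
  have hpa : ∀ v, ∀ a ∈ stabilizer G v, p v a = φ v a := by
    intro v a ha
    rw [mem_stabilizer_iff] at ha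
    rw [hp, ha]
    have h1 : (γ v)⁻¹ * a * γ v ∈ stabilizer G (r v) := by
      have := hmem v a
      rwa [ha] at this
    have h2 := hF.eqv (γ v) (r v) _ h1
    rw [hγ] at h2
    rw [← h2]
    congr 1
    group
  -- the function on the edges
  obtain ⟨D, hD⟩ : ∃ D : E → G → ℚ, ∀ e y, D e y = p (s e) y - p (t e) y := ⟨_, fun _ _ => rfl⟩
  have hDcoc : ∀ e y g, D e (y * g) = D (g • e) y + D e g := by
    intro e y g
    rw [hD, hD, hD, hcoc, hcoc, hO.s_act, hO.t_act]
    ring
  have hDa : ∀ e, ∀ a ∈ stabilizer G e, D e a = 0 := by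
    intro e a ha
    have ha2 := mem_stabilizer_iff.1 ha
    have hs : a ∈ stabilizer G (s e) := by
      rw [mem_stabilizer_iff, ← hO.s_act, ha2]
    have ht : a ∈ stabilizer G (t e) := by
      rw [mem_stabilizer_iff, ← hO.t_act, ha2]
    rw [hD, hpa _ _ hs, hpa _ _ ht, hF.comp e a ha, sub_self]
  obtain ⟨ν, hν⟩ : ∃ ν : E → ℚ, ∀ e, ν e = D (re e) (γe e) := ⟨_, fun _ => rfl⟩
  have hDν : ∀ e y, D e y = ν (y • e) - ν e := by
    intro e y
    have h1 := hDcoc (re e) y (γe e)
    rw [hγe] at h1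
    have h2 : y * γe e = γe (y • e) * ((γe (y • e))⁻¹ * (y * γe e)) := by group
    have h3 : (γe (y • e))⁻¹ * (y * γe e) ∈ stabilizer G (re e) := by
      rw [mem_stabilizer_iff, mul_smul, mul_smul, hγe, inv_smul_eq_iff]
      conv_rhs => rw [← hre y e]
      rw [hγe]
    have h4 := hDcoc (re e) (γe (y • e)) ((γe (y • e))⁻¹ * (y * γe e))
    rw [← h2, hDa _ _ h3, mem_stabilizer_iff.1 h3, add_zero] at h4
    rw [hν, hν, hre, ← h4]
    linarith
  -- the potential
  have hpot : ∃ κ : V → ℚ, ∀ e, κ (s e) - κ (t e) = ν e := by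
    obtain ⟨w, hw1, hw2⟩ : ∃ w : V → V → ℚ, (∀ e, w (s e) (t e) = ν e) ∧
        ∀ e, w (t e) (s e) = -ν e := by
      refine ⟨fun u v => if h : ∃ e, s e = u ∧ t e = v then ν h.choose else
        if h : ∃ e, s e = v ∧ t e = u then -ν h.choose else 0, fun e => ?_, fun e => ?_⟩
      · have h : ∃ e', s e' = s e ∧ t e' = t e := ⟨e, rfl, rfl⟩
        simp only []
        rw [dif_pos h]
        congr 1
        exact hO.inj _ _ h.choose_spec.1 h.choose_spec.2
      · have h1 : ¬ ∃ e', s e' = t e ∧ t e' = s e := by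
          rintro ⟨e', h2, h3⟩
          exact hO.one e e' h3.symm h2.symm
        have h : ∃ e', s e' = s e ∧ t e' = t e := ⟨e, rfl, rfl⟩
        simp only []
        rw [dif_neg h1, dif_pos h]
        congr 2
        exact hO.inj _ _ h.choose_spec.1 h.choose_spec.2
    let m : V → V → Multiplicative ℚ := fun u v => Multiplicative.ofAdd (w u v)
    have hm : ∀ u v, T.Adj u v → m u v * m v u = 1 := by
      intro u v h
      obtain ⟨e, ⟨rfl, rfl⟩ | ⟨rfl, rfl⟩⟩ := hO.all u v h
      · show Multiplicative.ofAdd (w (s e) (t e) + w (t e) (s e)) = 1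
        rw [hw1, hw2, add_neg_cancel]
        rfl
      · show Multiplicative.ofAdd (w (t e) (s e) + w (s e) (t e)) = 1
        rw [hw1, hw2, neg_add_cancel]
        rfl
    obtain ⟨o⟩ := hT.connected.nonempty
    refine ⟨fun v => Multiplicative.toAdd (gam hT m v o), fun e => ?_⟩
    have h1 := gam_mul hT m hm (s e) (t e) o
    rw [gam_adj hT m hm (hO.adj e)] at h1
    simp only []
    rw [← h1, toAdd_mul]
    show w (s e) (t e) + _ - _ = _
    rw [hw1]
    ring
  obtain ⟨κ, hκ⟩ := hpot
  obtain ⟨q, hq⟩ : ∃ q : V → G → ℚ, ∀ v y, q v y = p v y - (κ (y • v) - κ v) := ⟨_, fun _ _ => rfl⟩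
  have hqe : ∀ e y, q (s e) y = q (t e) y := by
    intro e y
    have h1 := hDν e y
    rw [hD, ← hκ, ← hκ, hO.s_act, hO.t_act] at h1
    rw [hq, hq]
    linarith
  have hqw : ∀ y (u v : V), T.Walk u v → q u y = q v y := by
    intro y u v w
    induction w with
    | nil => rfl
    | cons h _ ih =>
      rw [← ih]
      obtain ⟨e, ⟨h1, h2⟩ | ⟨h1, h2⟩⟩ := hO.all _ _ h
      · rw [← h1, ← h2]
        exact hqe e y
      · rw [← h1, ← h2]
        exact (hqe e y).symm
  have hqc : ∀ y (u v : V), q u y = q v y := fun y u v =>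
    hqw y u v (hT.connected.preconnected u v).some
  obtain ⟨v, a, ha, hva⟩ := hne
  refine ⟨fun y => q v y, fun x y => ?_, a, ?_⟩
  · have h1 : q v x = q (y • v) x := hqc _ _ _
    simp only []
    rw [h1, hq, hq, hq, hcoc, mul_smul]
    ring
  · simp only []
    rw [hq, hpa v a ha, mem_stabilizer_iff.1 ha]
    simpa using hva

end Pool.Agent.U27.LIP
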